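import Mathlib

/-!
# Polynomials with coefficients in a space, and rational substitutions
-/

set_option autoImplicit false

namespace Pool.Agent.Helper71.FC

open Finset MvPolynomial

variable {k E : Type} [Field k] [Field E] [Algebra k E]

/-- the coefficients are in `W`, the degree is at most `D` -/
def CW (W : Submodule k E) (D : ℕ) {σ : Type} (P : MvPolynomial σ E) : Prop :=
  (∀ s, P.coeff s ∈ W) ∧ P.totalDegree ≤ D

/-- a nontrivial relation of degree at most `D` with coefficients in `W` -/
def Rel (W : Submodule k E) (D : ℕ) {m : ℕ} (z : Fin m → E) : Prop :=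
  ∃ P : MvPolynomial (Fin m) E, P ≠ 0 ∧ CW W D P ∧ eval z P = 0

theorem CW.sum {W : Submodule k E} {D : ℕ} {σ ι : Type} (s : Finset ι) (f : ι → MvPolynomial σ E)
    (hf : ∀ i ∈ s, CW W D (f i)) : CW W D (∑ i ∈ s, f i) := by
  refine ⟨fun t => ?_, totalDegree_finsetSum_le fun i hi => (hf i hi).2⟩
  rw [coeff_sum]
  exact Submodule.sum_mem _ fun i hi => (hf i hi).1 t

theorem CW.bind {W : Submodule k E} {D : ℕ} {σ τ : Type} {P : MvPolynomial σ E}
    (hP : CW W D P) (f : σ → MvPolynomial τ k) (hf : ∀ i, (f i).totalDegree ≤ 1) :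
    CW W D (bind₁ (fun i => map (algebraMap k E) (f i)) P) := by
  classical
  have h1 : bind₁ (fun i => map (algebraMap k E) (f i)) P = ∑ v ∈ P.support,
      bind₁ (fun i => map (algebraMap k E) (f i)) (monomial v (coeff v P)) := by
    conv_lhs => rw [P.as_sum]
    rw [map_sum]
  rw [h1]
  refine CW.sum _ _ fun v hv => ?_
  have h2 : bind₁ (fun i => map (algebraMap k E) (f i)) (monomial v (coeff v P)) =
      C (coeff v P) * map (algebraMap k E) (∏ i ∈ v.support, f i ^ v i) := by
    rw [bind₁_monomial, map_prod]
    simp only [map_pow]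
  rw [h2]
  refine ⟨fun s => ?_, ?_⟩
  · rw [coeff_C_mul, coeff_map, mul_comm, ← Algebra.smul_def]
    exact W.smul_mem _ (hP.1 v)
  · refine (totalDegree_mul _ _).trans ?_
    rw [totalDegree_C, zero_add]
    refine (Finset.sup_le fun s hs => ?_ : (map (algebraMap k E)
      (∏ i ∈ v.support, f i ^ v i)).totalDegree ≤ D)
    have hs' : s ∈ (∏ i ∈ v.support, f i ^ v i).support := support_map_subset _ _ hs
    refine (le_totalDegree hs').trans ((totalDegree_finsetProd _ _).trans ?_)
    refine (Finset.sum_le_sum fun i _ => (totalDegree_pow (f i) (v i)).trans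
      (Nat.mul_le_mul_left _ (hf i))).trans ?_
    have h3 := le_totalDegree hv
    simp only [mul_one]
    exact h3.trans hP.2

/-- affine substitutions over the small field -/
theorem Rel.affine {W : Submodule k E} {D m : ℕ} {z : Fin m → E} (hz : Rel W D z)
    (h g : Matrix (Fin m) (Fin m) k) (hgh : g * h = 1) (v : Fin m → k) :
    Rel W D (fun i => algebraMap k E (v i) + ∑ j, algebraMap k E (h i j) * z j) := by
  classical
  obtain ⟨P, hP0, hP, hPz⟩ := hz
  let f : Fin m → MvPolynomial (Fin m) k := fun i => ∑ j, C (g i j) * (X j - C (v j))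
  let f' : Fin m → MvPolynomial (Fin m) k := fun i => C (v i) + ∑ j, C (h i j) * X j
  have hf : ∀ i, (f i).totalDegree ≤ 1 := by
    intro i
    refine totalDegree_finsetSum_le fun j _ => ?_
    refine (totalDegree_mul _ _).trans ?_
    rw [totalDegree_C, zero_add]
    refine (totalDegree_sub _ _).trans ?_
    rw [totalDegree_C, totalDegree_X]
    simp
  have hcomp : ∀ i, bind₁ f' (f i) = X i := by
    intro i
    simp only [f, map_sum, map_mul, map_sub, bind₁_X_right, bind₁_C_right, f', add_sub_cancel_left]
    simp only [Finset.mul_sum, ← mul_assoc, ← C_mul]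
    rw [Finset.sum_comm]
    simp only [← Finset.sum_mul, ← map_sum]
    have h1 : ∀ l, ∑ j, g i j * h j l = (1 : Matrix (Fin m) (Fin m) k) i l := by
      intro l
      rw [← hgh, Matrix.mul_apply]
    simp only [h1, Matrix.one_apply]
    rw [Finset.sum_eq_single i]
    · simp
    · intro b _ hb
      rw [if_neg (Ne.symm hb), C_0, zero_mul]
    · intro h; exact absurd (Finset.mem_univ i) h
  refine ⟨bind₁ (fun i => map (algebraMap k E) (f i)) P, ?_, hP.bind f hf, ?_⟩
  · intro h0
    apply hP0
    have h1 := congrArg (bind₁ (fun i => map (algebraMap k E) (f' i))) h0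
    rw [map_zero, bind₁_bind₁] at h1
    have h2 : (fun i => bind₁ (fun i => map (algebraMap k E) (f' i))
        (map (algebraMap k E) (f i))) = (X : Fin m → MvPolynomial (Fin m) E) := by
      funext i
      have h3 := congrArg (map (algebraMap k E)) (hcomp i)
      rw [map_X, map_bind₁] at h3
      exact h3
    rw [h2] at h1
    rw [← h1]
    exact (congrArg (fun F => F P) bind₁_X_left).symm.trans rfl
  · rw [← hPz]
    have h1 : eval (fun i => algebraMap k E (v i) + ∑ j, algebraMap k E (h i j) * z j)
        (bind₁ (fun i => map (algebraMap k E) (f i)) P) =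
        eval (fun i => eval (fun i => algebraMap k E (v i) + ∑ j, algebraMap k E (h i j) * z j)
          (map (algebraMap k E) (f i))) P := by
      have := MvPolynomial.aeval_bind₁ (R := E) (f := fun i =>
        (fun i => algebraMap k E (v i) + ∑ j, algebraMap k E (h i j) * z j) i)
        (g := fun i => map (algebraMap k E) (f i)) P
      simpa [MvPolynomial.aeval_eq_eval] using this
    rw [h1]
    congr 2
    funext i
    simp only [f, map_sum, map_mul, map_sub, map_C, map_X, eval_C, eval_X, add_sub_cancel_left]
    simp only [Finset.mul_sum, ← mul_assoc, ← map_mul]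
    rw [Finset.sum_comm]
    simp only [← Finset.sum_mul, ← map_sum]
    have h1 : ∀ l, ∑ j, g i j * h j l = (1 : Matrix (Fin m) (Fin m) k) i l := by
      intro l
      rw [← hgh, Matrix.mul_apply]
    simp only [h1, Matrix.one_apply]
    rw [Finset.sum_eq_single i]
    · simp
    · intro b _ hb
      rw [if_neg (Ne.symm hb), map_zero, zero_mul]
    · intro h; exact absurd (Finset.mem_univ i) h

/-- **Lines.** A polynomial which vanishes on a line with a direction over the small field gives a
relation in one variable less. -/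
theorem line [Infinite E] {W : Submodule k E} {D m : ℕ} {P : MvPolynomial (Fin (m + 1)) E}
    (hP0 : P ≠ 0) (hP : CW W D P) (y : Fin (m + 1) → E) (v : Fin (m + 1) → k) (i₀ : Fin (m + 1))
    (hv : v i₀ ≠ 0) (h : ∀ s : E, eval (fun i => y i + s * algebraMap k E (v i)) P = 0) :
    Rel W D (fun j : Fin m => y (i₀.succAbove j) -
      algebraMap k E (v (i₀.succAbove j) / v i₀) * y i₀) := by
  classical
  set c : Fin m → k := fun j => v (i₀.succAbove j) / v i₀ with hc
  let f : Fin (m + 1) → MvPolynomial (Fin (m + 1)) k :=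
    i₀.insertNth (X 0) (fun j => X j.succ + C (c j) * X 0)
  let g : Fin (m + 1) → MvPolynomial (Fin (m + 1)) k :=
    Fin.cons (X i₀) (fun j => X (i₀.succAbove j) - C (c j) * X i₀)
  have hf0 : f i₀ = X 0 := Fin.insertNth_apply_same _ _ _
  have hf1 : ∀ j, f (i₀.succAbove j) = X j.succ + C (c j) * X 0 := fun j =>
    Fin.insertNth_apply_succAbove _ _ _ _
  have hf : ∀ i, (f i).totalDegree ≤ 1 := by
    intro i
    rcases Fin.eq_self_or_eq_succAbove i₀ i with rfl | ⟨j, rfl⟩
    · rw [hf0, totalDegree_X]
    · rw [hf1]
      refine (totalDegree_add _ _).trans (max_le (by rw [totalDegree_X]) ?_)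
      refine (totalDegree_mul _ _).trans ?_
      rw [totalDegree_C, totalDegree_X]
  have hcomp : ∀ i, bind₁ g (f i) = X i := by
    intro i
    rcases Fin.eq_self_or_eq_succAbove i₀ i with rfl | ⟨j, rfl⟩
    · rw [hf0, bind₁_X_right]
      rfl
    · rw [hf1, map_add, map_mul, bind₁_X_right, bind₁_X_right, bind₁_C_right]
      simp [g]
  set P' := bind₁ (fun i => map (algebraMap k E) (f i)) P with hP'
  have hP'0 : P' ≠ 0 := by
    intro h0
    apply hP0
    have h1 := congrArg (bind₁ (fun i => map (algebraMap k E) (g i))) h0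
    rw [map_zero, hP', bind₁_bind₁] at h1
    have h2 : (fun i => bind₁ (fun i => map (algebraMap k E) (g i))
        (map (algebraMap k E) (f i))) = (X : Fin (m + 1) → MvPolynomial (Fin (m + 1)) E) := by
      funext i
      have h3 := congrArg (map (algebraMap k E)) (hcomp i)
      rw [map_X, map_bind₁] at h3
      exact h3
    rw [h2] at h1
    rw [← h1]
    exact (congrArg (fun F => F P) bind₁_X_left).symm.trans rfl
  have hP'W : CW W D P' := hP.bind f hf
  set z : Fin m → E := fun j => y (i₀.succAbove j) - algebraMap k E (c j) * y i₀ with hz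
  have hvE : algebraMap k E (v i₀) ≠ 0 := (map_ne_zero _).2 hv
  have heval : ∀ t : E, eval (Fin.cons t z : Fin (m + 1) → E) P' = 0 := by
    intro t
    have h1 : eval (Fin.cons t z : Fin (m + 1) → E) P' =
        eval (fun i => eval (Fin.cons t z : Fin (m + 1) → E) (map (algebraMap k E) (f i))) P := by
      have := MvPolynomial.aeval_bind₁ (R := E) (f := (Fin.cons t z : Fin (m + 1) → E))
        (g := fun i => map (algebraMap k E) (f i)) P
      simpa [MvPolynomial.aeval_eq_eval] using this
    rw [h1, ← h ((t - y i₀) / algebraMap k E (v i₀))]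
    congr 2
    funext i
    rcases Fin.eq_self_or_eq_succAbove i₀ i with rfl | ⟨j, rfl⟩
    · rw [hf0, map_X, eval_X, Fin.cons_zero, div_mul_cancel₀ _ hvE]
      ring
    · rw [hf1, map_add, map_mul, map_X, map_X, map_C, map_add, map_mul, eval_X, eval_X, eval_C,
        Fin.cons_zero, Fin.cons_succ, hz, hc]
      simp only [map_div₀]
      field_simp
      ring
  set q := finSuccEquiv E m P' with hq
  have hq0 : q ≠ 0 := by
    intro h0
    exact hP'0 ((finSuccEquiv E m).injective (by rw [← hq, h0, map_zero]))
  have hmap : Polynomial.map (eval z) q = 0 := by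
    apply Polynomial.funext
    intro t
    rw [Polynomial.eval_zero, hq, ← eval_eq_eval_mv_eval']
    exact heval t
  obtain ⟨i, hi⟩ : ∃ i, q.coeff i ≠ 0 := by
    by_contra hcon
    push Not at hcon
    exact hq0 (Polynomial.ext fun i => by rw [hcon i, Polynomial.coeff_zero])
  refine ⟨q.coeff i, hi, ⟨fun s => ?_, ?_⟩, ?_⟩
  · rw [hq, finSuccEquiv_coeff_coeff]
    exact hP'W.1 _
  · have h3 := totalDegree_coeff_finSuccEquiv_add_le P' i hi
    rw [← hq] at h3
    have h2 := hP'W.2
    omega
  · have h1 := congrArg (fun r => Polynomial.coeff r i) hmap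
    simpa [Polynomial.coeff_map] using h1

end Pool.Agent.Helper71.FC
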