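import Mathlib
import Pool.Graph.R_seed8.Y787.AS.Main
import Pool.Agent.Helper71.FC.Poly

/-!
# Minimal relations
-/

set_option autoImplicit false

namespace Pool.Agent.Helper71.FC

open Finset MvPolynomial Module

variable {k E : Type} [Field k] [Field E] [Algebra k E]

/-- combinations of the coordinates -/
def cmb {m m' : ℕ} (u : Fin m' → Fin m → k) (y : Fin m → E) : Fin m' → E :=
  fun j => ∑ i, algebraMap k E (u j i) * y i

/-- `y` satisfies a relation, but fewer independent combinations never do -/
def Bad (W : Submodule k E) (D m : ℕ) (y : Fin m → E) : Prop :=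
  LinearIndependent k (Fin.cons 1 y : Fin (m + 1) → E) ∧ Rel W D y ∧
    ∀ m' < m, ∀ u : Fin m' → Fin m → k, LinearIndependent k u → ¬ Rel W D (cmb u y)

theorem cmb_cmb {m m' m'' : ℕ} (u : Fin m' → Fin m → k) (v : Fin m'' → Fin m' → k)
    (y : Fin m → E) : cmb v (cmb u y) = cmb (fun j i => ∑ l, v j l * u l i) y := by
  funext j
  simp only [cmb, Finset.mul_sum, map_sum, map_mul, Finset.sum_mul]
  rw [Finset.sum_comm]
  exact Finset.sum_congr rfl fun i _ => Finset.sum_congr rfl fun l _ => by ring

theorem li_mul {m m' m'' : ℕ} (u : Fin m' → Fin m → k) (v : Fin m'' → Fin m' → k)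
    (hu : LinearIndependent k u) (hv : LinearIndependent k v) :
    LinearIndependent k (fun j i => ∑ l, v j l * u l i : Fin m'' → Fin m → k) := by
  rw [Fintype.linearIndependent_iff] at hu hv ⊢
  intro c hc
  apply hv
  have h1 := hu (fun l => ∑ j, c j * v j l) (by
    funext i
    have h2 := congrFun hc i
    simp only [Finset.sum_apply, Pi.smul_apply, smul_eq_mul, Pi.zero_apply] at h2 ⊢
    rw [← h2]
    simp only [Finset.sum_mul, Finset.mul_sum]
    rw [Finset.sum_comm]
    exact Finset.sum_congr rfl fun j _ => Finset.sum_congr rfl fun l _ => by ring)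
  funext l
  simp only [Finset.sum_apply, Pi.smul_apply, smul_eq_mul, Pi.zero_apply]
  exact h1 l

/-- independence with `1` passes to combinations -/
theorem li_cmb {m m' : ℕ} {y : Fin m → E}
    (hy : LinearIndependent k (Fin.cons 1 y : Fin (m + 1) → E)) (u : Fin m' → Fin m → k)
    (hu : LinearIndependent k u) (v : Fin m' → k) :
    LinearIndependent k (Fin.cons 1 (fun j => algebraMap k E (v j) + cmb u y j) :
      Fin (m' + 1) → E) := by
  rw [Fintype.linearIndependent_iff] at hy ⊢
  intro c hc
  rw [Fin.sum_univ_succ] at hc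
  simp only [Fin.cons_zero, Fin.cons_succ, Algebra.smul_def, mul_one, mul_add,
    Finset.sum_add_distrib, cmb, Finset.mul_sum] at hc
  have h1 := hy (Fin.cons (c 0 + ∑ j, c j.succ * v j) (fun i => ∑ j, c j.succ * u j i)) (by
    rw [Fin.sum_univ_succ]
    simp only [Fin.cons_zero, Fin.cons_succ, Algebra.smul_def, mul_one, map_add, map_sum, map_mul,
      Finset.sum_mul]
    rw [← hc, add_assoc]
    congr 2
    rw [Finset.sum_comm]
    exact Finset.sum_congr rfl fun i _ => Finset.sum_congr rfl fun j _ => by ring)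
  have h2 : ∀ j : Fin m', c j.succ = 0 := by
    rw [Fintype.linearIndependent_iff] at hu
    apply hu
    funext i
    have h3 := h1 i.succ
    rw [Fin.cons_succ] at h3
    simp only [Finset.sum_apply, Pi.smul_apply, smul_eq_mul, Pi.zero_apply]
    exact h3
  intro i
  refine Fin.cases ?_ h2 i
  have h3 := h1 0
  rw [Fin.cons_zero] at h3
  simpa [h2] using h3

theorem Rel.trans_iff {W : Submodule k E} {D m : ℕ} {z : Fin m → E} {v : Fin m → k}
    (hz : Rel W D (fun i => algebraMap k E (v i) + z i)) : Rel W D z := by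
  have h1 := hz.affine (1 : Matrix (Fin m) (Fin m) k) 1 (one_mul _) (fun i => -v i)
  have h2 : (fun i => algebraMap k E (-v i) + ∑ j, algebraMap k E ((1 : Matrix (Fin m) (Fin m) k) i j) *
      (algebraMap k E (v j) + z j)) = z := by
    funext i
    rw [Finset.sum_eq_single i]
    · rw [Matrix.one_apply_eq, map_one, one_mul, map_neg]
      ring
    · intro j _ hj
      rw [Matrix.one_apply_ne (Ne.symm hj), map_zero, zero_mul]
    · intro h; exact absurd (Finset.mem_univ i) h
  rw [h2] at h1
  exact h1

theorem li_rows {m : ℕ} (h : Matrix (Fin m) (Fin m) k) (hdet : h.det ≠ 0) :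
    LinearIndependent k (fun i j => h i j : Fin m → Fin m → k) :=
  Matrix.linearIndependent_rows_of_det_ne_zero hdet

/-- affine maps -/
theorem Bad.act {W : Submodule k E} {D m : ℕ} {y : Fin m → E} (hy : Bad W D m y)
    (h : Matrix (Fin m) (Fin m) k) (hdet : h.det ≠ 0) (v : Fin m → k) :
    Bad W D m (fun i => algebraMap k E (v i) + cmb (fun i j => h i j) y i) := by
  have hu : IsUnit h.det := isUnit_iff_ne_zero.2 hdet
  refine ⟨li_cmb hy.1 _ (li_rows h hdet) v, ?_, ?_⟩
  · exact hy.2.1.affine h h⁻¹ (Matrix.nonsing_inv_mul h hu) v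
  · intro m' hm' u hu' hrel
    refine hy.2.2 m' hm' _ (li_mul (fun i j => h i j) u (li_rows h hdet) hu') ?_
    refine Eq.mp (congrArg (Rel W D) (cmb_cmb (fun i j => h i j) u y)) ?_
    refine Rel.trans_iff (v := fun j => ∑ i, u j i * v i) ?_
    have h1 : cmb u (fun i => algebraMap k E (v i) + cmb (fun i j => h i j) y i) =
        fun j => algebraMap k E (∑ i, u j i * v i) + cmb u (cmb (fun i j => h i j) y) j := by
      funext j
      simp only [cmb, mul_add, Finset.sum_add_distrib, map_sum, map_mul]
    rw [h1] at hrel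
    exact hrel

/-- no lines -/
theorem Bad.no_line [Infinite E] {W : Submodule k E} {D m : ℕ} {y : Fin m → E} (hy : Bad W D m y)
    {P : MvPolynomial (Fin m) E} (hP0 : P ≠ 0) (hP : CW W D P) (v : Fin m → k) (hv : v ≠ 0)
    (h : ∀ s : E, eval (fun i => y i + s * algebraMap k E (v i)) P = 0) : False := by
  classical
  obtain ⟨i₀, hi₀⟩ : ∃ i, v i ≠ 0 := by
    by_contra hcon
    push Not at hcon
    exact hv (funext hcon)
  obtain ⟨m', rfl⟩ : ∃ m', m = m' + 1 := ⟨m - 1, by have := i₀.2; omega⟩
  have h1 := line hP0 hP y v i₀ hi₀ h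
  set u : Fin m' → Fin (m' + 1) → k := fun j i =>
    (if i = i₀.succAbove j then 1 else 0) - (if i = i₀ then v (i₀.succAbove j) / v i₀ else 0) with hu
  refine hy.2.2 m' (Nat.lt_succ_self _) u ?_ ?_
  · rw [Fintype.linearIndependent_iff]
    intro c hc j
    have h2 := congrFun hc (i₀.succAbove j)
    simp only [Finset.sum_apply, Pi.smul_apply, smul_eq_mul, Pi.zero_apply, hu,
      Fin.succAbove_ne, if_false, sub_zero, Fin.succAbove_right_inj] at h2
    simpa using h2
  · convert h1 using 1
    funext j
    simp only [cmb, hu, map_sub, sub_mul, Finset.sum_sub_distrib]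
    congr 1
    · rw [Finset.sum_eq_single (i₀.succAbove j)]
      · rw [if_pos rfl, map_one, one_mul]
      · intro i _ hi
        rw [if_neg hi, map_zero, zero_mul]
      · intro h; exact absurd (Finset.mem_univ _) h
    · rw [Finset.sum_eq_single i₀]
      · rw [if_pos rfl]
      · intro i _ hi
        rw [if_neg hi, map_zero, zero_mul]
      · intro h; exact absurd (Finset.mem_univ _) h

/-- there are minimal relations -/
theorem exists_bad {W : Submodule k E} {D m : ℕ} {y : Fin m → E}
    (hy : LinearIndependent k (Fin.cons 1 y : Fin (m + 1) → E)) (hrel : Rel W D y) :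
    ∃ m' ≤ m, ∃ u : Fin m' → Fin m → k, Bad W D m' (cmb u y) := by
  classical
  have hex : ∃ m', ∃ u : Fin m' → Fin m → k, LinearIndependent k u ∧ Rel W D (cmb u y) := by
    refine ⟨m, fun i j => (1 : Matrix (Fin m) (Fin m) k) i j, li_rows _ (by simp), ?_⟩
    have : cmb (fun i j => (1 : Matrix (Fin m) (Fin m) k) i j) y = y := by
      funext i
      simp only [cmb]
      rw [Finset.sum_eq_single i]
      · rw [Matrix.one_apply_eq, map_one, one_mul]
      · intro j _ hj
        rw [Matrix.one_apply_ne (Ne.symm hj), map_zero, zero_mul]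
      · intro h; exact absurd (Finset.mem_univ i) h
    rw [this]
    exact hrel
  obtain ⟨u, hu, hrel'⟩ := Nat.find_spec hex
  have hmin := fun m' (hm' : m' < Nat.find hex) => Nat.find_min hex hm'
  refine ⟨Nat.find hex, ?_, u, ?_, hrel', ?_⟩
  · have := hu.fintype_card_le_finrank
    simpa using this
  · have h1 := li_cmb hy u hu 0
    simpa using h1
  · intro m' hm' u' hu' h
    refine hmin m' hm' ⟨_, li_mul u u' hu hu', ?_⟩
    rw [← cmb_cmb]
    exact h

end Pool.Agent.Helper71.FC
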