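import Mathlib
import Pool.Graph.R_seed8.H297R2.Generic
import Pool.Agent.Helper71.FC.Bad

/-!
# The dimension of the set of minimal relations
-/

set_option autoImplicit false

namespace Pool.Agent.Helper71.FC

open Finset MvPolynomial Module
open Pool.Agent.H297R2 (Ex card_Ex)
open Pool.Agent.W254.PA (Hyp)
open Pool.Agent.Y787.AS (Wts' fam_coord Big RE)

variable {k E : Type} [Field k] [Field E] [Algebra k E]

/-- the value of a polynomial with coefficients in `W` -/
theorem cw_eval {W : Submodule k E} [Module.Finite k W] {D m : ℕ} {P : MvPolynomial (Fin m) E}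
    (hP : CW W D P) (hP0 : P ≠ 0) : ∃ T : Ex (Fin m) D × Fin (finrank k W) → k, (∃ p, T p ≠ 0) ∧
      ∀ z : Fin m → E, eval z P = ∑ p, algebraMap k E (T p) *
        (((Module.finBasis k W p.2 : W) : E) * ∏ i, z i ^ (p.1 : Fin m →₀ ℕ) i) := by
  classical
  set w := Module.finBasis k W with hw
  let T : Ex (Fin m) D × Fin (finrank k W) → k := fun p =>
    w.repr ⟨P.coeff (p.1 : Fin m →₀ ℕ), hP.1 _⟩ p.2
  have hco : ∀ s : Ex (Fin m) D, ∑ a, algebraMap k E (T (s, a)) * ((w a : W) : E) =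
      P.coeff (s : Fin m →₀ ℕ) := by
    intro s
    have h1 := congrArg (fun x : W => (x : E)) (w.sum_repr ⟨P.coeff (s : Fin m →₀ ℕ), hP.1 _⟩)
    simp only [Submodule.coe_sum, Submodule.coe_smul, Algebra.smul_def] at h1
    exact h1
  have hdeg : ∀ s ∈ P.support, s.degree ≤ D := by
    intro s hs
    refine le_trans ?_ hP.2
    have h1 := le_totalDegree hs
    rw [Finsupp.degree_apply]
    exact h1
  refine ⟨T, ?_, ?_⟩
  · by_contra hcon
    push Not at hcon
    apply hP0
    ext s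
    rw [coeff_zero]
    by_cases hs : s ∈ P.support
    · rw [← hco ⟨s, hdeg s hs⟩]
      exact Finset.sum_eq_zero fun a _ => by rw [hcon, map_zero, zero_mul]
    · exact notMem_support_iff.1 hs
  · intro z
    rw [Fintype.sum_prod_type]
    have h1 : ∀ s : Ex (Fin m) D, ∑ a, algebraMap k E (T (s, a)) *
        (((w a : W) : E) * ∏ i, z i ^ (s : Fin m →₀ ℕ) i) =
        P.coeff (s : Fin m →₀ ℕ) * ∏ i, z i ^ (s : Fin m →₀ ℕ) i := by
      intro s
      rw [← hco s, Finset.sum_mul]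
      exact Finset.sum_congr rfl fun a _ => by ring
    simp only [h1]
    rw [eval_eq']
    have h2 : ∑ s : Ex (Fin m) D, P.coeff (s : Fin m →₀ ℕ) * ∏ i, z i ^ (s : Fin m →₀ ℕ) i =
        ∑ s ∈ (Finset.univ : Finset (Ex (Fin m) D)).map (Function.Embedding.subtype _),
          P.coeff s * ∏ i, z i ^ s i := by
      rw [Finset.sum_map]
      rfl
    rw [h2]
    refine Finset.sum_subset ?_ ?_
    · intro s hs
      rw [Finset.mem_map]
      exact ⟨⟨s, hdeg s hs⟩, Finset.mem_univ _, rfl⟩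
    · intro s _ hs
      rw [notMem_support_iff.1 hs, zero_mul]

/-- **The dimension of the set of the tuples with a minimal relation.** -/
theorem bad_dim [CharZero k] [CharZero E] {Lt : Submodule k E} (hL : Hyp Lt) (hw : Wts' k E)
    {W : Submodule k E} [Module.Finite k W] {D m d N : ℕ}
    (hd : finrank k W * (D + m).choose m + m * (m - 1) ≤ d + 1)
    (l : Fin N → E) (hl : ∀ j, l j ∈ Lt) (hli : LinearIndependent k l)
    (φ : Fin (d + 1) → ((Fin m × Fin N → k) →ₗ[k] k)) :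
    ∃ P : MvPolynomial (Fin (d + 1)) k, P ≠ 0 ∧ ∀ b : Fin m → Fin N → k,
      Bad W D m (fun i => ∑ j, algebraMap k E (b i j) * l j) →
        eval (fun i => φ i (fun p => b p.1 p.2)) P = 0 := by
  classical
  have hinf : Infinite E := CharZero.infinite E
  set w := Module.finBasis k W with hwdef
  let I := Ex (Fin m) D × Fin (finrank k W)
  have hcard : Fintype.card I ≤ finrank k W * (D + m).choose m := by
    rw [Fintype.card_prod, Fintype.card_fin, mul_comm]
    exact Nat.mul_le_mul_left _ (card_Ex m D)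
  rcases Nat.eq_zero_or_pos (Fintype.card I) with h0 | hpos
  · refine ⟨1, one_ne_zero, fun b hb => ?_⟩
    exfalso
    obtain ⟨P, hP0, hP, -⟩ := hb.2.1
    obtain ⟨T, ⟨p, -⟩, -⟩ := cw_eval hP hP0
    exact (Fintype.card_eq_zero_iff.1 h0).false p
  obtain ⟨τ, hτ⟩ : ∃ τ, Fintype.card I = τ + 1 := ⟨Fintype.card I - 1, by omega⟩
  let e : Fin (τ + 1) ≃ I := (Fintype.equivFinOfCardEq hτ).symm
  let mon : I → MvPolynomial (Fin m ⊕ Fin τ) E := fun p =>
    C ((w p.2 : W) : E) * ∏ i, X (Sum.inl i) ^ (p.1 : Fin m →₀ ℕ) i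
  have hmon : ∀ (p : I) (z : Fin m → E) (t : Fin τ → E), eval (Sum.elim z t) (mon p) =
      ((w p.2 : W) : E) * ∏ i, z i ^ (p.1 : Fin m →₀ ℕ) i := by
    intro p z t
    simp only [mon, map_mul, map_prod, map_pow, eval_C, eval_X, Sum.elim_inl]
  let F : Fin (τ + 1) → Fin 1 → MvPolynomial (Fin m ⊕ Fin τ) E := fun i₀ _ =>
    mon (e i₀) + ∑ a, X (Sum.inr a) * mon (e (i₀.succAbove a))
  have hex := fun i₀ => fam_coord hL hw (m := m) (N := N) (q := d + 1) (τ := τ) (ρ := 0) l hl hli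
    (F i₀) (by
      intro ρ' hρ'
      obtain rfl : ρ' = 0 := by omega
      rw [zero_mul, zero_add, Nat.sub_zero]
      omega) φ
  choose P hP0 hP using hex
  refine ⟨∏ i₀, P i₀, Finset.prod_ne_zero_iff.2 fun i₀ _ => hP0 i₀, fun b hb => ?_⟩
  obtain ⟨Q, hQ0, hQ, hQy⟩ := hb.2.1
  obtain ⟨T, ⟨p₀, hp₀⟩, hT⟩ := cw_eval hQ hQ0
  set i₀ := e.symm p₀ with hi₀
  have hei : e i₀ = p₀ := by rw [hi₀, Equiv.apply_symm_apply]
  set t : Fin τ → k := fun a => T (e (i₀.succAbove a)) / T p₀ with ht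
  have hTE : algebraMap k E (T p₀) ≠ 0 := (map_ne_zero _).2 hp₀
  have hFe : ∀ (z : Fin m → E) (s : Fin 1), eval (Sum.elim z (fun a => algebraMap k E (t a)))
      (F i₀ s) = (algebraMap k E (T p₀))⁻¹ * eval z Q := by
    intro z s
    rw [hT z, ← Equiv.sum_comp e, Fin.sum_univ_succAbove _ i₀, mul_add, ← mul_assoc, hei,
      inv_mul_cancel₀ hTE, one_mul]
    simp only [F, map_add, map_sum, map_mul, eval_X, Sum.elim_inr, hmon, hei]
    congr 1
    rw [Finset.mul_sum]
    refine Finset.sum_congr rfl fun a _ => ?_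
    rw [ht, map_div₀, div_eq_inv_mul]
    ring
  rw [map_prod]
  refine Finset.prod_eq_zero (Finset.mem_univ i₀) (hP i₀ b t ?_ ?_)
  · intro s
    rw [hFe _ s, hQy, mul_zero]
  · rintro ⟨R, hR, hRv⟩
    have hRne : R ≠ ⊥ := by
      rintro rfl
      simp at hR
    obtain ⟨v, hvR, hv0⟩ := Submodule.exists_mem_ne_zero_of_ne_bot hRne
    refine hb.no_line hQ0 hQ v hv0 fun s => ?_
    have h1 := hRv 0 (fun i => s * algebraMap k E (v i)) (by
      have h2 : (fun i => algebraMap k E (v i)) ∈ RE E R := Submodule.subset_span ⟨v, hvR, rfl⟩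
      exact (RE E R).smul_mem s h2)
    rw [hFe _ 0] at h1
    rcases mul_eq_zero.1 h1 with h2 | h2
    · exact absurd (inv_eq_zero.1 h2) hTE
    · exact h2

end Pool.Agent.Helper71.FC
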