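import Mathlib
import Pool.Agent.Helper71.SFE.Gen
import Pool.Agent.Helper71.FC.Dim

/-!
# Extension of rational spaces without relations
-/

set_option autoImplicit false

namespace Pool.Agent.Helper71.FC

open Finset Module Filter
open Pool.Agent.W254.PA (Hyp)
open Pool.Agent.Y787.AS (GE ge ge_eq ge_eq_zero Wts')
open Pool.Agent.Helper71.SFE (ultra_pigeon trdeg_bound algKG germ_indep germ_dep algField exists_minor)

/-- a sequence of rational points which leaves every proper algebraic subset -/
theorem exists_generic (k : Type) [Field k] [CharZero k] [Countable k] (ι : Type) [Finite ι] :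
    ∃ z : ℕ → ι → ℚ, ∀ Ψ : MvPolynomial ι k, Ψ ≠ 0 →
      ∀ᶠ j in Filter.atTop, MvPolynomial.eval (fun i => (z j i : k)) Ψ ≠ 0 := by
  classical
  have hcount : Countable (MvPolynomial ι k) := by
    rw [← Cardinal.mk_le_aleph0_iff]
    refine (MvPolynomial.cardinalMk_le_max).trans ?_
    simp
  obtain ⟨f, hf⟩ := exists_surjective_nat (MvPolynomial ι k)
  have h : ∀ j : ℕ, ∃ z : ι → ℚ,
      MvPolynomial.eval (fun i => (z i : k)) (∏ i ∈ range (j + 1), if f i = 0 then 1 else f i) ≠ 0 := by
    intro j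
    by_contra hcon
    push Not at hcon
    have h1 : (∏ i ∈ range (j + 1), if f i = 0 then 1 else f i) = 0 := by
      refine MvPolynomial.funext_set (fun _ : ι => Set.range (fun q : ℚ => (q : k)))
        (fun _ => Set.infinite_range_of_injective Rat.cast_injective) fun x hx => ?_
      choose y hy using fun i => hx i (Set.mem_univ i)
      have h2 : x = fun i => (y i : k) := funext fun i => (hy i).symm
      rw [h2, hcon y, map_zero]
    rw [Finset.prod_eq_zero_iff] at h1
    obtain ⟨i, -, hi⟩ := h1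
    split_ifs at hi with h0
    · exact one_ne_zero hi
    · exact h0 hi
  choose z hz using h
  refine ⟨z, fun Ψ hΨ => ?_⟩
  obtain ⟨i, rfl⟩ := hf Ψ
  filter_upwards [Filter.eventually_ge_atTop i] with j hj
  have h1 := hz j
  rw [map_prod, Finset.prod_ne_zero_iff] at h1
  have h2 := h1 i (Finset.mem_range.2 (by omega))
  rwa [if_neg hΨ] at h2

variable {k E : Type} [Field k] [Field E] [Algebra k E] [CharZero k] [CharZero E]

/-- Baker's property, with the number one -/
def Bk (k : Type) {E : Type} [Field k] [Field E] [Algebra k E] [CharZero E]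
    (Λ : Submodule ℚ E) : Prop :=
  ∀ (r : ℕ) (w : Fin r → E), (∀ i, w i ∈ Λ) → LinearIndependent ℚ w →
    LinearIndependent k (Fin.cons 1 w : Fin (r + 1) → E)

/-- no minimal relations of at most `n` elements of the span of `V` -/
def FreeQ (W : Submodule k E) (D n : ℕ) (V : Submodule ℚ E) : Prop :=
  ∀ m ≤ n, ∀ y : Fin m → E, (∀ i, y i ∈ Submodule.span k (V : Set E)) → ¬ Bad W D m y

/-- an adapted basis -/
theorem adapted (F G : Submodule ℚ E) [Module.Finite ℚ F] (hGF : G ≤ F) :
    ∃ (q g : ℕ) (b : Fin q ⊕ Fin g → E), LinearIndependent ℚ b ∧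
      Submodule.span ℚ (Set.range b) = F ∧ Submodule.span ℚ (Set.range (b ∘ Sum.inr)) = G := by
  classical
  obtain ⟨K, hK⟩ := exists_isCompl G
  have hGf : Module.Finite ℚ G := Submodule.finiteDimensional_of_le hGF
  set C : Submodule ℚ E := K ⊓ F with hC
  have hCf : Module.Finite ℚ C := Submodule.finiteDimensional_of_le inf_le_right
  have h1 : G ⊔ C = F := by
    rw [hC, ← sup_inf_assoc_of_le K hGF, hK.sup_eq_top, top_inf_eq]
  have h2 : Disjoint C G := by
    rw [disjoint_iff]
    exact le_bot_iff.1 ((inf_le_inf_right _ inf_le_left).trans (le_of_eq (by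
      rw [inf_comm]; exact hK.inf_eq_bot)))
  set bC := Module.finBasis ℚ C
  set bG := Module.finBasis ℚ G
  have h3 : Submodule.span ℚ (Set.range fun i => (bC i : E)) = C := by
    have := congrArg (Submodule.map C.subtype) bC.span_eq
    rw [Submodule.map_span, Submodule.map_top, Submodule.range_subtype, ← Set.range_comp] at this
    exact this
  have h4 : Submodule.span ℚ (Set.range fun i => (bG i : E)) = G := by
    have := congrArg (Submodule.map G.subtype) bG.span_eq
    rw [Submodule.map_span, Submodule.map_top, Submodule.range_subtype, ← Set.range_comp] at this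
    exact this
  refine ⟨finrank ℚ C, finrank ℚ G, Sum.elim (fun i => (bC i : E)) (fun i => (bG i : E)), ?_, ?_, ?_⟩
  · refine LinearIndependent.sum_type (bC.linearIndependent.map' C.subtype (Submodule.ker_subtype C))
      (bG.linearIndependent.map' G.subtype (Submodule.ker_subtype G)) ?_
    change Disjoint (Submodule.span ℚ (Set.range fun i => (bC i : E)))
      (Submodule.span ℚ (Set.range fun i => (bG i : E)))
    rw [h3, h4]
    exact h2
  · rw [Set.Sum.elim_range, Submodule.span_union, h3, h4, sup_comm]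
    exact h1
  · exact h4

/-- the tuple with given coordinates -/
def pt {m q g : ℕ} (b : Fin q ⊕ Fin g → E) (v : Fin m → k) (X : Fin m → Fin q ⊕ Fin g → k) :
    Fin m → E := fun i => algebraMap k E (v i) + ∑ s, algebraMap k E (X i s) * b s

/-- the properties of the bad tuples used below -/
def Vio {c q g m : ℕ} (W : Submodule k E) (D : ℕ) (b : Fin q ⊕ Fin g → E)
    (φ : Fin c → Fin q → ℚ) (P : Matrix (Fin m) (Fin m) k) (v : Fin m → k)
    (J : Fin m → Fin q ⊕ Fin g) (i₀ : Fin m) (k₀ : Fin q) (X : Fin m → Fin q ⊕ Fin g → k) : Prop :=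
  Bad W D m (pt b v X) ∧ (∀ a i, ∑ j, (φ a j : k) * X i (Sum.inl j) = 0) ∧
    (∀ i i', X i (J i') = P i i') ∧ X i₀ (Sum.inl k₀) ≠ 0

/-- the rational space cut out by `φ` -/
def cut {c q g : ℕ} (b : Fin q ⊕ Fin g → E) (φ : Fin c → Fin q → ℚ) : Submodule ℚ E :=
  Submodule.map (Fintype.linearCombination ℚ b)
    (LinearMap.ker (LinearMap.pi fun a : Fin c =>
      ∑ j, φ a j • (LinearMap.proj (Sum.inl j) : (Fin q ⊕ Fin g → ℚ) →ₗ[ℚ] ℚ)))

theorem mem_cut {c q g : ℕ} {b : Fin q ⊕ Fin g → E} {φ : Fin c → Fin q → ℚ} {x : E} :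
    x ∈ cut b φ ↔ ∃ X : Fin q ⊕ Fin g → ℚ, (∀ a, ∑ j, φ a j * X (Sum.inl j) = 0) ∧
      x = ∑ s, (X s : E) * b s := by
  unfold cut
  rw [Submodule.mem_map]
  constructor
  · rintro ⟨X, hX, rfl⟩
    refine ⟨X, fun a => ?_, ?_⟩
    · have := congrFun (LinearMap.mem_ker.1 hX) a
      simpa [LinearMap.sum_apply] using this
    · rw [Fintype.linearCombination_apply]
      exact Finset.sum_congr rfl fun s _ => Rat.smul_def _ _
  · rintro ⟨X, hX, rfl⟩
    refine ⟨X, ?_, ?_⟩
    · rw [LinearMap.mem_ker]
      funext a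
      simpa [LinearMap.sum_apply] using hX a
    · rw [Fintype.linearCombination_apply]
      exact Finset.sum_congr rfl fun s _ => Rat.smul_def _ _

/-- elements of the span of the space cut out by `φ` -/
theorem mem_span_cut {c q g : ℕ} {b : Fin q ⊕ Fin g → E} {φ : Fin c → Fin q → ℚ} {x : E}
    (hx : x ∈ Submodule.span k (cut b φ : Set E)) :
    ∃ X : Fin q ⊕ Fin g → k, (∀ a, ∑ j, (φ a j : k) * X (Sum.inl j) = 0) ∧
      x = ∑ s, algebraMap k E (X s) * b s := by
  induction hx using Submodule.span_induction with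
  | mem x hx =>
    obtain ⟨X, hX, rfl⟩ := mem_cut.1 hx
    refine ⟨fun s => (X s : k), fun a => ?_, ?_⟩
    · rw [← Rat.cast_zero (α := k), ← hX a]
      push_cast
      rfl
    · exact Finset.sum_congr rfl fun s _ => by rw [map_ratCast]
  | zero => exact ⟨0, fun a => by simp, by simp⟩
  | add x y _ _ hx hy =>
    obtain ⟨X, hX, rfl⟩ := hx
    obtain ⟨Y, hY, rfl⟩ := hy
    refine ⟨X + Y, fun a => ?_, ?_⟩
    · simp only [Pi.add_apply, mul_add, Finset.sum_add_distrib, hX a, hY a, add_zero]
    · simp only [Pi.add_apply, map_add, add_mul, Finset.sum_add_distrib]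
  | smul t x _ hx =>
    obtain ⟨X, hX, rfl⟩ := hx
    refine ⟨t • X, fun a => ?_, ?_⟩
    · have h1 := congrArg (fun z => t * z) (hX a)
      simp only [mul_zero, Finset.mul_sum] at h1
      rw [← h1]
      exact Finset.sum_congr rfl fun j _ => by rw [Pi.smul_apply, smul_eq_mul]; ring
    · rw [Algebra.smul_def, Finset.mul_sum]
      exact Finset.sum_congr rfl fun s _ => by rw [Pi.smul_apply, smul_eq_mul, map_mul, mul_assoc]

theorem exists_vio {c q g n : ℕ} {W : Submodule k E} {D : ℕ} {G : Submodule ℚ E}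
    (hG : FreeQ W D n G) (b : Fin q ⊕ Fin g → E)
    (hbG : ∀ j, b (Sum.inr j) ∈ G) (φ : Fin c → Fin q → ℚ) (hbad : ¬ FreeQ W D n (cut b φ))
    (P : ∀ m : ℕ, m ≤ n → Matrix (Fin m) (Fin m) k) (hP : ∀ m h, (P m h).det ≠ 0)
    (v : ∀ m : ℕ, m ≤ n → Fin m → k) :
    ∃ (m : ℕ) (hm : m ≤ n) (J : Fin m → Fin q ⊕ Fin g) (i₀ : Fin m) (k₀ : Fin q)
      (X : Fin m → Fin q ⊕ Fin g → k), Vio W D b φ (P m hm) (v m hm) J i₀ k₀ X := by
  classical
  unfold FreeQ at hbad
  push Not at hbad
  obtain ⟨m, hm, y, hy, hBy⟩ := hbad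
  choose Y hφ hYy using fun i => mem_span_cut (hy i)
  -- rows are independent
  have hli : ∀ w : Fin m → k, (∀ a : Fin (q + g), ∑ i, w i * Y i (finSumFinEquiv.symm a) = 0) →
      w = 0 := by
    intro w hw
    have h1 := hBy.1
    rw [Fintype.linearIndependent_iff] at h1
    have h2 := h1 (Fin.cons 0 w) (by
      rw [Fin.sum_univ_succ]
      simp only [Fin.cons_zero, Fin.cons_succ, Algebra.smul_def, map_zero, zero_mul, zero_add]
      have h3 : ∀ s, ∑ i, w i * Y i s = 0 := by
        intro s
        have := hw (finSumFinEquiv s)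
        simpa using this
      calc ∑ i, algebraMap k E (w i) * y i = ∑ i, algebraMap k E (w i) *
            ∑ s, algebraMap k E (Y i s) * b s := Finset.sum_congr rfl fun i _ => by rw [← hYy i]
        _ = ∑ s, algebraMap k E (∑ i, w i * Y i s) * b s := by
            simp only [Finset.mul_sum, map_sum, Finset.sum_mul, map_mul]
            rw [Finset.sum_comm]
            exact Finset.sum_congr rfl fun i _ => Finset.sum_congr rfl fun s _ => by ring
        _ = 0 := Finset.sum_eq_zero fun s _ => by rw [h3, map_zero, zero_mul])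
    funext i
    have := h2 i.succ
    rwa [Fin.cons_succ] at this
  obtain ⟨e, -, he⟩ := exists_minor (Matrix.of fun i a => Y i (finSumFinEquiv.symm a)) hli
  set J : Fin m → Fin q ⊕ Fin g := fun i => finSumFinEquiv.symm (e i) with hJ
  set C : Matrix (Fin m) (Fin m) k := Matrix.of fun i i' => Y i (J i') with hC
  have hCd : C.det ≠ 0 := he
  have hCu : IsUnit C.det := isUnit_iff_ne_zero.2 hCd
  set h : Matrix (Fin m) (Fin m) k := P m hm * C⁻¹ with hh
  have hhd : h.det ≠ 0 := by
    rw [hh, Matrix.det_mul]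
    refine mul_ne_zero (hP m hm) ?_
    intro h0
    have h2 := congrArg Matrix.det (Matrix.mul_nonsing_inv _ hCu)
    rw [Matrix.det_mul, h0, mul_zero, Matrix.det_one] at h2
    exact zero_ne_one h2
  let X : Fin m → Fin q ⊕ Fin g → k := fun i s => ∑ j, h i j * Y j s
  have hXy : ∀ i, ∑ s, algebraMap k E (X i s) * b s = cmb (fun i j => h i j) y i := by
    intro i
    simp only [X, cmb]
    calc ∑ s, algebraMap k E (∑ j, h i j * Y j s) * b s
        = ∑ j, algebraMap k E (h i j) * ∑ s, algebraMap k E (Y j s) * b s := by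
          simp only [Finset.mul_sum, map_sum, Finset.sum_mul, map_mul]
          rw [Finset.sum_comm]
          exact Finset.sum_congr rfl fun i _ => Finset.sum_congr rfl fun s _ => by ring
      _ = ∑ j, algebraMap k E (h i j) * y j := Finset.sum_congr rfl fun j _ => by rw [← hYy j]
  have hBX : Bad W D m (pt b (v m hm) X) := by
    have h2 := hBy.act h hhd (v m hm)
    have h3 : pt b (v m hm) X = fun i => algebraMap k E (v m hm i) + cmb (fun i j => h i j) y i := by
      funext i
      rw [pt, hXy]
    rw [h3]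
    exact h2
  have hBX0 : Bad W D m (fun i => cmb (fun i j => h i j) y i) := by
    have h2 := hBy.act h hhd 0
    simpa using h2
  have hne : ∃ i a, X i (Sum.inl a) ≠ 0 := by
    by_contra hcon
    push Not at hcon
    refine hG m hm _ (fun i => ?_) hBX0
    rw [← hXy i, Fintype.sum_sum_type]
    simp only [hcon, map_zero, zero_mul, Finset.sum_const_zero, zero_add]
    refine Submodule.sum_mem _ fun j _ => ?_
    rw [← Algebra.smul_def]
    exact Submodule.smul_mem _ _ (Submodule.subset_span (hbG j))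
  obtain ⟨i₀, k₀, hik⟩ := hne
  refine ⟨m, hm, J, i₀, k₀, X, hBX, ?_, ?_, hik⟩
  · intro a i
    simp only [X, Finset.mul_sum]
    rw [Finset.sum_comm]
    refine Finset.sum_eq_zero fun j _ => ?_
    calc ∑ a', (φ a a' : k) * (h i j * Y j (Sum.inl a')) =
          h i j * ∑ a', (φ a a' : k) * Y j (Sum.inl a') := by
          rw [Finset.mul_sum]
          exact Finset.sum_congr rfl fun a _ => by ring
      _ = 0 := by rw [hφ j a, mul_zero]
  · intro i i'
    have h2 : h * C = P m hm := by
      rw [hh, Matrix.mul_assoc, Matrix.nonsing_inv_mul _ hCu, Matrix.mul_one]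
    rw [← h2, Matrix.mul_apply]
    rfl

end Pool.Agent.Helper71.FC
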