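import Mathlib
import Pool.Agent.Helper71.FC.Ext

/-!
# The generic functional
-/

set_option autoImplicit false

namespace Pool.Agent.Helper71.FC

open Finset Module Filter
open Pool.Agent.W254.PA (Hyp)
open Pool.Agent.Y787.AS (GE ge ge_eq ge_eq_zero Wts')
open Pool.Agent.Helper71.SFE (ultra_pigeon trdeg_bound algKG germ_indep germ_dep algField)

variable {k E : Type} [Field k] [Field E] [Algebra k E] [CharZero k] [CharZero E]

/-- **The generic functional.** -/
theorem generic_bound {Lt : Submodule k E} (hL : Hyp Lt) (hw : Wts' k E) {W : Submodule k E}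
    [Module.Finite k W] {D n m c q g d : ℕ} (hm : m ≤ n)
    (hd : finrank k W * (D + m).choose m + m * (m - 1) ≤ d + 1)
    (b : Fin q ⊕ Fin g → E) (h1L : (1 : E) ∈ Lt) (hbL : ∀ s, b s ∈ Lt)
    (hb : LinearIndependent k (Fin.cons 1 (b ∘ finSumFinEquiv.symm) : Fin (q + g + 1) → E))
    (J : Fin m → Fin q ⊕ Fin g) (i₀ : Fin m) (k₀ : Fin q)
    (z : ℕ → (Fin c × Fin q) ⊕ ((Fin n × Fin n) ⊕ Fin n) → ℚ)
    (hz : ∀ Ψ : MvPolynomial ((Fin c × Fin q) ⊕ ((Fin n × Fin n) ⊕ Fin n)) k, Ψ ≠ 0 →
      ∀ᶠ j in Filter.atTop, MvPolynomial.eval (fun i => (z j i : k)) Ψ ≠ 0)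
    (𝒰 : Ultrafilter ℕ) (h𝒰 : (𝒰 : Filter ℕ) ≤ atTop)
    (h : ∀ᶠ j in (𝒰 : Filter ℕ), ∃ X : Fin m → Fin q ⊕ Fin g → k,
      Vio W D b (fun b a => z j (Sum.inl (b, a)))
        (Matrix.of fun i i' => (z j (Sum.inr (Sum.inl (Fin.castLE hm i, Fin.castLE hm i'))) : k))
        (fun i => (z j (Sum.inr (Sum.inr (Fin.castLE hm i))) : k)) J i₀ k₀ X) :
    c + m * m + m ≤ d := by
  classical
  let algK := algKG k 𝒰
  -- the choice
  have hch : ∀ j, ∃ X : Fin m → Fin q ⊕ Fin g → k, (∃ X : Fin m → Fin q ⊕ Fin g → k,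
      Vio W D b (fun b a => z j (Sum.inl (b, a)))
        (Matrix.of fun i i' => (z j (Sum.inr (Sum.inl (Fin.castLE hm i, Fin.castLE hm i'))) : k))
        (fun i => (z j (Sum.inr (Sum.inr (Fin.castLE hm i))) : k)) J i₀ k₀ X) →
      Vio W D b (fun b a => z j (Sum.inl (b, a)))
        (Matrix.of fun i i' => (z j (Sum.inr (Sum.inl (Fin.castLE hm i, Fin.castLE hm i'))) : k))
        (fun i => (z j (Sum.inr (Sum.inr (Fin.castLE hm i))) : k)) J i₀ k₀ X := by
    intro j
    by_cases hj : ∃ X : Fin m → Fin q ⊕ Fin g → k,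
      Vio W D b (fun b a => z j (Sum.inl (b, a)))
        (Matrix.of fun i i' => (z j (Sum.inr (Sum.inl (Fin.castLE hm i, Fin.castLE hm i'))) : k))
        (fun i => (z j (Sum.inr (Sum.inr (Fin.castLE hm i))) : k)) J i₀ k₀ X
    · obtain ⟨X, hX⟩ := hj
      exact ⟨X, fun _ => hX⟩
    · exact ⟨0, fun h => absurd h hj⟩
  choose X hX using hch
  have hV := h.mono hX
  -- the germs
  let xs : Fin c × Fin q → GE 𝒰 k := fun p => ge 𝒰 k (fun j => (z j (Sum.inl p) : k))
  let ps : (Fin m × Fin m) ⊕ Fin m → GE 𝒰 k := Sum.elim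
    (fun p => ge 𝒰 k (fun j =>
      (z j (Sum.inr (Sum.inl (Fin.castLE hm p.1, Fin.castLE hm p.2))) : k)))
    (fun i => ge 𝒰 k (fun j => (z j (Sum.inr (Sum.inr (Fin.castLE hm i))) : k)))
  let co : (Fin m × (Fin q ⊕ Fin g)) ⊕ Fin m → ℕ → k := Sum.elim
    (fun p j => X j p.1 p.2) (fun i j => (z j (Sum.inr (Sum.inr (Fin.castLE hm i))) : k))
  let ys : (Fin m × (Fin q ⊕ Fin g)) ⊕ Fin m → GE 𝒰 k := fun s => ge 𝒰 k (co s)
  have hps : ∀ p : Fin m × Fin m, ys (Sum.inl (p.1, J p.2)) = ps (Sum.inl p) := by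
    intro p
    refine (ge_eq 𝒰 _ _).2 ?_
    refine hV.mono fun j hj => ?_
    exact hj.2.2.1 p.1 p.2
  -- independence
  have hind : AlgebraicIndependent k (fun i => ge 𝒰 k (fun j => (z j i : k))) :=
    germ_indep 𝒰 h𝒰 (fun j i => (z j i : k)) hz
  let emb : (Fin c × Fin q) ⊕ ((Fin m × Fin m) ⊕ Fin m) →
      (Fin c × Fin q) ⊕ ((Fin n × Fin n) ⊕ Fin n) :=
    Sum.map id (Sum.map (Prod.map (Fin.castLE hm) (Fin.castLE hm)) (Fin.castLE hm))
  have hemb : Function.Injective emb :=
    Function.Injective.sumMap Function.injective_id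
      (Function.Injective.sumMap (Function.Injective.prodMap (Fin.castLE_injective hm)
        (Fin.castLE_injective hm)) (Fin.castLE_injective hm))
  have hind' : AlgebraicIndependent k (Sum.elim xs ps) := by
    have h1 := hind.comp emb hemb
    convert h1 using 1
    funext r
    rcases r with r | r | r
    · rfl
    · rfl
    · rfl
  set Z : Set (GE 𝒰 k) := Set.range (Sum.elim xs ps) with hZdef
  have hZcard : Z.encard = (c * q + (m * m + m) : ℕ) := by
    have h2 : Function.Injective (Sum.elim xs ps) := hind'.injective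
    rw [hZdef, ← Set.image_univ, h2.encard_image, Set.encard_univ, ENat.card_eq_coe_fintype_card]
    simp
  set S : Set (GE 𝒰 k) := Set.range ys with hSdef
  set T : Set (GE 𝒰 k) := (fun p => xs p) '' {p : Fin c × Fin q | p.2 ≠ k₀} with hTdef
  have hTcard : T.encard ≤ (c * (q - 1) : ℕ) := by
    refine (Set.encard_image_le _ _).trans ?_
    have h3 : {p : Fin c × Fin q | p.2 ≠ k₀} =
        ((Finset.univ : Finset (Fin c)) ×ˢ (Finset.univ.erase k₀ : Finset (Fin q)) :
          Finset (Fin c × Fin q)) := by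
      ext p
      simp
    rw [h3, Set.encard_coe_eq_coe_finsetCard, Finset.card_product, Finset.card_erase_of_mem
      (Finset.mem_univ _)]
    simp
  have hmain := trdeg_bound S T Z d (c * (q - 1)) ?_ hTcard
    hind'.to_subtype_range ?_
  · rw [hZcard] at hmain
    have h4 : c * q + (m * m + m) ≤ d + c * (q - 1) := by exact_mod_cast hmain
    have hq : 1 ≤ q := Nat.succ_le_of_lt (lt_of_le_of_lt (Nat.zero_le _) k₀.2)
    obtain ⟨q', rfl⟩ : ∃ q', q = q' + 1 := ⟨q - 1, by omega⟩
    rw [Nat.add_sub_cancel, Nat.mul_succ] at h4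
    omega
  · -- many elements are dependent
    intro s hs
    choose t ht using hs
    let enc : (Fin m × (Fin q ⊕ Fin g)) ⊕ Fin m → Fin m × Fin (q + g + 1) := Sum.elim
      (fun p => (p.1, (finSumFinEquiv p.2).succ)) (fun i => (i, 0))
    obtain ⟨Ψ, hΨ, hΨ0⟩ := bad_dim hL hw hd
      (Fin.cons 1 (b ∘ finSumFinEquiv.symm) : Fin (q + g + 1) → E) (by
        intro j
        refine Fin.cases ?_ (fun j => ?_) j
        · rw [Fin.cons_zero]; exact h1L
        · rw [Fin.cons_succ]; exact hbL _) hb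
      (fun i => LinearMap.proj (enc (t i)))
    have h5 : s = fun i => ge 𝒰 k (fun j => (fun i => co (t i) j) i) := by
      funext i
      exact (ht i).symm
    rw [h5]
    refine germ_dep 𝒰 (fun j i => co (t i) j) Ψ hΨ (hV.mono fun j hj => ?_)
    have h6 := hΨ0 (fun i => Fin.cons (z j (Sum.inr (Sum.inr (Fin.castLE hm i))) : k)
      (fun a => X j i (finSumFinEquiv.symm a))) (by
        have h7 := hj.1
        convert h7 using 1
        funext i
        rw [Fin.sum_univ_succ, pt]
        simp only [Fin.cons_zero, Fin.cons_succ, mul_one, Function.comp_apply]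
        congr 1
        exact (Equiv.sum_comp finSumFinEquiv.symm (fun s => algebraMap k E (X j i s) * b s)))
    rw [← h6]
    congr 1
    congr 1
    funext i
    rcases hti : t i with p | p
    · simp [co, enc, LinearMap.proj_apply]
    · simp [co, enc, LinearMap.proj_apply]
  · -- everything is algebraic
    set R' := Algebra.adjoin k (S ∪ T) with hR'
    have hmemS : ∀ s, ys s ∈ algField R' := fun s =>
      isAlgebraic_algebraMap (⟨ys s, Algebra.subset_adjoin (Or.inl ⟨s, rfl⟩)⟩ : R')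
    have hmemT : ∀ p : Fin c × Fin q, p.2 ≠ k₀ → xs p ∈ algField R' := fun p hp =>
      isAlgebraic_algebraMap (⟨xs p, Algebra.subset_adjoin (Or.inr ⟨p, hp, rfl⟩)⟩ : R')
    rintro _ ⟨s, rfl⟩
    rcases s with ⟨b', a⟩ | s | s
    · by_cases ha : a = k₀
      · subst ha
        -- the linear relation
        have hy0 : ys (Sum.inl (i₀, Sum.inl a)) ≠ 0 := by
          intro h0
          rw [ge_eq_zero] at h0
          obtain ⟨j, h6, h7⟩ := (h0.and hV).exists
          exact h7.2.2.2 h6
        have hrel : ∑ a', xs (b', a') * ys (Sum.inl (i₀, Sum.inl a')) = 0 := by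
          have h8 : ∑ a', xs (b', a') * ys (Sum.inl (i₀, Sum.inl a')) =
              ge 𝒰 k (fun j => ∑ a', (z j (Sum.inl (b', a')) : k) * X j i₀ (Sum.inl a')) := by
            simp only [xs, ys, ← map_mul, ← map_sum]
            congr 1
            funext j
            rw [Finset.sum_apply]
            rfl
          rw [h8, ge_eq_zero]
          exact hV.mono fun j hj => hj.2.1 b' i₀
        have h9 : xs (b', a) = -(∑ a' ∈ Finset.univ.erase a,
            xs (b', a') * ys (Sum.inl (i₀, Sum.inl a'))) * (ys (Sum.inl (i₀, Sum.inl a)))⁻¹ := by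
          rw [eq_mul_inv_iff_mul_eq₀ hy0, eq_neg_iff_add_eq_zero]
          rw [← hrel, ← Finset.add_sum_erase _ _ (Finset.mem_univ a)]
        change xs (b', a) ∈ algField R'
        rw [h9]
        refine (algField R').mul_mem ((algField R').neg_mem ((algField R').sum_mem
          fun a' ha' => (algField R').mul_mem
            (hmemT (b', a') (Finset.ne_of_mem_erase ha')) (hmemS _))) ((algField R').inv_mem (hmemS _))
      · exact hmemT (b', a) ha
    · change ps (Sum.inl s) ∈ algField R'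
      rw [← hps s]
      exact hmemS _
    · exact hmemS (Sum.inr s)

end Pool.Agent.Helper71.FC
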