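import Mathlib
import Pool.Agent.Helper71.FC.Gen

/-!
# One step of the extension
-/

set_option autoImplicit false

namespace Pool.Agent.Helper71.FC

open Finset Module Filter
open Pool.Agent.W254.PA (Hyp)
open Pool.Agent.Y787.AS (GE ge ge_eq ge_eq_zero Wts')
open Pool.Agent.Helper71.SFE (ultra_pigeon)

variable {k E : Type} [Field k] [Field E] [Algebra k E] [CharZero k] [CharZero E]

/-- generic matrices are regular -/
theorem corner_det {c q n m : ℕ} (hm : m ≤ n)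
    (z : ℕ → (Fin c × Fin q) ⊕ ((Fin n × Fin n) ⊕ Fin n) → ℚ)
    (hz : ∀ Ψ : MvPolynomial ((Fin c × Fin q) ⊕ ((Fin n × Fin n) ⊕ Fin n)) k, Ψ ≠ 0 →
      ∀ᶠ j in Filter.atTop, MvPolynomial.eval (fun i => (z j i : k)) Ψ ≠ 0) :
    ∀ᶠ j in Filter.atTop, (Matrix.of fun i i' : Fin m =>
      (z j (Sum.inr (Sum.inl (Fin.castLE hm i, Fin.castLE hm i'))) : k)).det ≠ 0 := by
  classical
  set Ψ : MvPolynomial ((Fin c × Fin q) ⊕ ((Fin n × Fin n) ⊕ Fin n)) k :=
    (Matrix.of fun i i' : Fin m =>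
      (MvPolynomial.X (Sum.inr (Sum.inl (Fin.castLE hm i, Fin.castLE hm i'))) :
      MvPolynomial ((Fin c × Fin q) ⊕ ((Fin n × Fin n) ⊕ Fin n)) k)).det with hΨ
  have heval : ∀ x : (Fin c × Fin q) ⊕ ((Fin n × Fin n) ⊕ Fin n) → k, MvPolynomial.eval x Ψ =
      (Matrix.of fun i i' : Fin m =>
        x (Sum.inr (Sum.inl (Fin.castLE hm i, Fin.castLE hm i')))).det := by
    intro x
    rw [hΨ, RingHom.map_det]
    congr 1
    ext i j
    simp
  have hne : Ψ ≠ 0 := by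
    intro h0
    have h1 := heval (Sum.elim (fun _ => 0) (Sum.elim (fun p => if p.1 = p.2 then 1 else 0)
      (fun _ => 0)))
    rw [h0, map_zero] at h1
    have h2 : (Matrix.of fun i i' : Fin m => (Sum.elim (fun _ => (0 : k))
        (Sum.elim (fun p : Fin n × Fin n => if p.1 = p.2 then 1 else 0) (fun _ => 0)))
          (Sum.inr (Sum.inl (Fin.castLE hm i, Fin.castLE hm i')) :
            (Fin c × Fin q) ⊕ ((Fin n × Fin n) ⊕ Fin n))) =
        (1 : Matrix (Fin m) (Fin m) k) := by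
      ext i j
      simp only [Matrix.of_apply, Sum.elim_inr, Sum.elim_inl, Matrix.one_apply]
      by_cases h : i = j
      · simp [h]
      · rw [if_neg h, if_neg fun h' => h (Fin.castLE_injective hm h')]
    rw [h2, Matrix.det_one] at h1
    exact zero_ne_one h1
  refine (hz Ψ hne).mono fun j hj => ?_
  rw [heval] at hj
  exact hj

theorem finrank_cut {c q g : ℕ} {b : Fin q ⊕ Fin g → E} (hb : LinearIndependent ℚ b)
    (φ : Fin c → Fin q → ℚ) : q + g ≤ finrank ℚ (cut b φ) + c := by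
  classical
  have h2 := LinearMap.finrank_range_add_finrank_ker (LinearMap.pi fun a : Fin c =>
      ∑ j, φ a j • (LinearMap.proj (Sum.inl j) : (Fin q ⊕ Fin g → ℚ) →ₗ[ℚ] ℚ))
  have h3 : finrank ℚ (LinearMap.range (LinearMap.pi fun a : Fin c =>
      ∑ j, φ a j • (LinearMap.proj (Sum.inl j) : (Fin q ⊕ Fin g → ℚ) →ₗ[ℚ] ℚ))) ≤ c := by
    refine (Submodule.finrank_le _).trans ?_
    rw [finrank_fintype_fun_eq_card, Fintype.card_fin]
  have hinj : Function.Injective (Fintype.linearCombination ℚ b) :=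
    linearIndependent_iff_injective_fintypeLinearCombination.1 hb
  have h4 : finrank ℚ (cut b φ) = finrank ℚ (LinearMap.ker (LinearMap.pi fun a : Fin c =>
      ∑ j, φ a j • (LinearMap.proj (Sum.inl j) : (Fin q ⊕ Fin g → ℚ) →ₗ[ℚ] ℚ))) :=
    (Submodule.equivMapOfInjective _ hinj _).finrank_eq.symm
  rw [finrank_fintype_fun_eq_card, Fintype.card_sum, Fintype.card_fin, Fintype.card_fin] at h2
  omega

/-- **One step.** -/
theorem ext_step [Countable k] {Lt : Submodule k E} (hL : Hyp Lt) (hw : Wts' k E)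
    {W : Submodule k E} [Module.Finite k W] {D n c : ℕ}
    (hc : ∀ m, 0 < m → m ≤ n → finrank k W * (D + m).choose m ≤ c + 2 * m)
    (F G : Submodule ℚ E) [Module.Finite ℚ F] (h1L : (1 : E) ∈ Lt) (hF : ∀ x ∈ F, x ∈ Lt)
    (hBk : Bk k F) (hGF : G ≤ F) (hG : FreeQ W D n G) :
    ∃ G' : Submodule ℚ E, G ≤ G' ∧ G' ≤ F ∧ FreeQ W D n G' ∧
      finrank ℚ F ≤ finrank ℚ G' + c := by
  classical
  obtain ⟨q, g, b, hb, hbF, hbG⟩ := adapted F G hGF
  have hbF' : ∀ s, b s ∈ F := fun s => by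
    rw [← hbF]; exact Submodule.subset_span ⟨s, rfl⟩
  have hbG' : ∀ j, b (Sum.inr j) ∈ G := fun j => by
    rw [← hbG]; exact Submodule.subset_span ⟨j, rfl⟩
  have hFr : finrank ℚ F = q + g := by
    rw [← hbF, finrank_span_eq_card hb, Fintype.card_sum, Fintype.card_fin, Fintype.card_fin]
  have hbk : LinearIndependent k (Fin.cons 1 (b ∘ finSumFinEquiv.symm) : Fin (q + g + 1) → E) :=
    hBk (q + g) _ (fun i => hbF' _) (hb.comp _ (finSumFinEquiv.symm.injective))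
  by_contra hcon
  push Not at hcon
  have hbad : ∀ φ : Fin c → Fin q → ℚ, ¬ FreeQ W D n (cut b φ) := by
    intro φ hgood
    have h1 := hcon (cut b φ) ?_ ?_ hgood
    · have h2 := finrank_cut hb φ
      omega
    · rw [← hbG]
      refine Submodule.span_le.2 ?_
      rintro _ ⟨j, rfl⟩
      refine mem_cut.2 ⟨Pi.single (Sum.inr j) 1, fun a => ?_, ?_⟩
      · exact Finset.sum_eq_zero fun i _ => by
          rw [Pi.single_eq_of_ne (by simp), mul_zero]
      · rw [Finset.sum_eq_single (Sum.inr j)]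
        · simp
        · intro s _ hs
          rw [Pi.single_eq_of_ne hs, Rat.cast_zero, zero_mul]
        · intro h; exact absurd (Finset.mem_univ _) h
    · intro x hx
      obtain ⟨X, -, rfl⟩ := mem_cut.1 hx
      refine Submodule.sum_mem _ fun s _ => ?_
      rw [← Rat.smul_def]
      exact F.smul_mem _ (hbF' s)
  obtain ⟨z, hz⟩ := exists_generic k ((Fin c × Fin q) ⊕ ((Fin n × Fin n) ⊕ Fin n))
  set 𝒰 : Ultrafilter ℕ := Ultrafilter.of atTop with h𝒰def
  have h𝒰 : (𝒰 : Filter ℕ) ≤ atTop := Ultrafilter.of_le _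
  -- pigeonhole
  let TT : Type := (m : Fin (n + 1)) × (Fin (m : ℕ) → Fin q ⊕ Fin g) × Fin (m : ℕ) × Fin q
  have hdet : ∀ᶠ j in (𝒰 : Filter ℕ), ∀ m : Fin (n + 1), (Matrix.of fun i i' : Fin (m : ℕ) =>
      (z j (Sum.inr (Sum.inl (Fin.castLE (Nat.le_of_lt_succ m.2) i,
        Fin.castLE (Nat.le_of_lt_succ m.2) i'))) : k)).det ≠ 0 := by
    rw [Filter.eventually_all]
    intro m
    exact (corner_det (Nat.le_of_lt_succ m.2) z hz).filter_mono h𝒰
  have hex : ∀ᶠ j in (𝒰 : Filter ℕ), ∃ t : TT, ∃ X : Fin (t.1 : ℕ) → Fin q ⊕ Fin g → k,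
      Vio W D b (fun b a => z j (Sum.inl (b, a)))
        (Matrix.of fun i i' => (z j (Sum.inr (Sum.inl (Fin.castLE (Nat.le_of_lt_succ t.1.2) i,
          Fin.castLE (Nat.le_of_lt_succ t.1.2) i'))) : k))
        (fun i => (z j (Sum.inr (Sum.inr (Fin.castLE (Nat.le_of_lt_succ t.1.2) i))) : k))
        t.2.1 t.2.2.1 t.2.2.2 X := by
    refine hdet.mono fun j hj => ?_
    obtain ⟨m, hm, J, i₀, k₀, X, hX⟩ := exists_vio hG b hbG'
      (fun b a => z j (Sum.inl (b, a))) (hbad _)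
      (fun m hm => Matrix.of fun i i' =>
        (z j (Sum.inr (Sum.inl (Fin.castLE hm i, Fin.castLE hm i'))) : k))
      (fun m hm => hj ⟨m, Nat.lt_succ_of_le hm⟩)
      (fun m hm i => (z j (Sum.inr (Sum.inr (Fin.castLE hm i))) : k))
    exact ⟨⟨⟨m, Nat.lt_succ_of_le hm⟩, J, i₀, k₀⟩, X, hX⟩
  obtain ⟨t, ht⟩ := ultra_pigeon 𝒰 _ hex
  have hmn : (t.1 : ℕ) ≤ n := Nat.le_of_lt_succ t.1.2
  set m : ℕ := (t.1 : ℕ) with hmdef
  have hm0 : 0 < m := lt_of_le_of_lt (Nat.zero_le _) t.2.2.1.2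
  have hbound := generic_bound (d := finrank k W * (D + m).choose m + m * (m - 1) - 1) hL hw hmn
    (by omega) b h1L (fun s => hF _ (hbF' s)) hbk t.2.1 t.2.2.1 t.2.2.2 z hz 𝒰 h𝒰 ht
  have h5 := hc m hm0 hmn
  obtain ⟨u, hu⟩ : ∃ u, m = u + 1 := ⟨m - 1, by omega⟩
  rw [hu] at h5 hbound
  rw [Nat.add_sub_cancel] at hbound
  have h6 : (u + 1) * (u + 1) = (u + 1) * u + (u + 1) := by ring
  rw [h6] at hbound
  omega

end Pool.Agent.Helper71.FC
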