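import Mathlib
import Pool.Agent.Helper71.FC.Step

/-!
# Spaces of finite codimension with an inductive property
-/

set_option autoImplicit false

namespace Pool.Agent.Helper71.FC

open Finset Module
open Pool.Agent.W254.PA (Hyp)
open Pool.Agent.Y787.AS (Wts')

variable {k E : Type} [Field k] [Field E] [Algebra k E] [CharZero k] [CharZero E]

/-- an abstract greedy argument -/
theorem chain_codim {E : Type} [Field E] [CharZero E] (Pr : Submodule ℚ E → Prop) (c : ℕ)
    (Λ : Submodule ℚ E) (hcount : (Λ : Set E).Countable)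
    (hstep' : ∀ F G : Submodule ℚ E, Module.Finite ℚ F → F ≤ Λ → G ≤ F → Pr G →
      ∃ G' : Submodule ℚ E, G ≤ G' ∧ G' ≤ F ∧ Pr G' ∧ finrank ℚ F ≤ finrank ℚ G' + c)
    (hunion : ∀ G : ℕ → Submodule ℚ E, Monotone G → (∀ i, Pr (G i)) → Pr (⨆ i, G i))
    (V : Submodule ℚ E) (hVΛ : V ≤ Λ) (hVf : Module.Finite ℚ V) (hV : Pr V) :
    ∃ Λ' U : Submodule ℚ E, V ≤ Λ' ∧ Λ' ⊔ U = Λ ∧ Module.Finite ℚ U ∧
      finrank ℚ U ≤ c ∧ Pr Λ' := by
  classical
  obtain ⟨f, hf⟩ := hcount.exists_eq_range ⟨0, Λ.zero_mem⟩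
  have hfΛ : ∀ n, f n ∈ Λ := fun n => by
    have : f n ∈ (Λ : Set E) := by rw [hf]; exact ⟨n, rfl⟩
    exact this
  let F : ℕ → Submodule ℚ E := fun i => V ⊔ Submodule.span ℚ (f '' Set.Iio i)
  have hFf : ∀ i, Module.Finite ℚ (F i) := by
    intro i
    have : Module.Finite ℚ (Submodule.span ℚ (f '' Set.Iio i)) :=
      FiniteDimensional.span_of_finite ℚ ((Set.finite_Iio i).image f)
    change Module.Finite ℚ (V ⊔ Submodule.span ℚ (f '' Set.Iio i) : Submodule ℚ E)
    infer_instance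
  have hFΛ : ∀ i, F i ≤ Λ := fun i => sup_le hVΛ (Submodule.span_le.2 (by
    rintro _ ⟨j, -, rfl⟩
    exact hfΛ j))
  have hFmono : Monotone F := fun i j hij => sup_le_sup_left
    (Submodule.span_mono (Set.image_mono (Set.Iio_subset_Iio hij))) _
  have hstep : ∀ (i : ℕ) (G : Submodule ℚ E), ∃ G' : Submodule ℚ E, G ≤ F i → Pr G →
      (G ≤ G' ∧ G' ≤ F (i + 1) ∧ Pr G' ∧ finrank ℚ (F (i + 1)) ≤ finrank ℚ G' + c) := by
    intro i G
    by_cases h : G ≤ F i ∧ Pr G
    · have := hFf (i + 1)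
      obtain ⟨G', hG'⟩ := hstep' (F (i + 1)) G (hFf (i + 1)) (hFΛ _)
        (h.1.trans (hFmono (Nat.le_succ i))) h.2
      exact ⟨G', fun _ _ => hG'⟩
    · exact ⟨G, fun h1 h2 => absurd ⟨h1, h2⟩ h⟩
  choose g hg using hstep
  obtain ⟨G, hG0, hGs⟩ : ∃ G : ℕ → Submodule ℚ E, G 0 = V ∧ ∀ i, G (i + 1) = g i (G i) :=
    ⟨fun i => Nat.rec V (fun i G => g i G) i, rfl, fun i => rfl⟩
  have hGF : ∀ i, G i ≤ F i ∧ Pr (G i) ∧ finrank ℚ (F i) ≤ finrank ℚ (G i) + c := by
    intro i
    induction i with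
    | zero =>
      rw [hG0]
      refine ⟨le_sup_left, hV, ?_⟩
      have : F 0 = V := by
        have h0 : (Set.Iio 0 : Set ℕ) = ∅ := by ext; simp
        change V ⊔ Submodule.span ℚ (f '' Set.Iio 0) = V
        rw [h0, Set.image_empty, Submodule.span_empty, sup_bot_eq]
      rw [this]
      exact Nat.le_add_right _ _
    | succ i ih =>
      rw [hGs]
      obtain ⟨-, h2, h3, h4⟩ := hg i (G i) ih.1 ih.2.1
      exact ⟨h2, h3, h4⟩
  have hGmono : Monotone G := monotone_nat_of_le_succ fun i => by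
    rw [hGs]
    exact (hg i (G i) (hGF i).1 (hGF i).2.1).1
  set Λ' : Submodule ℚ E := ⨆ i, G i with hΛ'
  have hGΛ' : ∀ i, G i ≤ Λ' := fun i => le_iSup G i
  have hΛ'Λ : Λ' ≤ Λ := iSup_le fun i => (hGF i).1.trans (hFΛ i)
  have hgood : Pr Λ' := by
    exact hunion G hGmono fun i => (hGF i).2.1
  -- the quotient
  set Q : Submodule ℚ (E ⧸ Λ') := Λ.map Λ'.mkQ with hQ
  have hrank : Module.rank ℚ Q ≤ c := by
    refine rank_le fun s hs => ?_
    have hu : ∀ x : s, ∃ u : E, u ∈ Λ ∧ Λ'.mkQ u = (x : Q) := by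
      intro x
      obtain ⟨u, hu, hu'⟩ := Submodule.mem_map.1 (x : Q).2
      exact ⟨u, hu, hu'⟩
    choose u huΛ hux using hu
    have hN : ∀ x : s, ∃ i, u x ∈ F i := by
      intro x
      have : u x ∈ Set.range f := by rw [← hf]; exact huΛ x
      obtain ⟨j, hj⟩ := this
      exact ⟨j + 1, Submodule.mem_sup_right (Submodule.subset_span ⟨j, by simp, hj⟩)⟩
    choose ν hν using hN
    set A := (Finset.univ : Finset s).sup ν with hNdef
    have huF : ∀ x : s, u x ∈ F A := fun x => hFmono (Finset.le_sup (f := ν) (Finset.mem_univ x)) (hν x)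
    have hliQ : LinearIndependent ℚ (fun x : s => Λ'.mkQ (u x)) := by
      have h1 : LinearIndependent ℚ (fun x : s => Q.subtype (x : Q)) :=
        hs.map' Q.subtype (Submodule.ker_subtype Q)
      have h2 : (fun x : s => Λ'.mkQ (u x)) = fun x : s => Q.subtype (x : Q) := funext hux
      rw [h2]
      exact h1
    have hli : LinearIndependent ℚ u := LinearIndependent.of_comp Λ'.mkQ hliQ
    have hdis : G A ⊓ Submodule.span ℚ (Set.range u) = ⊥ := by
      rw [Submodule.eq_bot_iff]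
      rintro x ⟨hx1, hx2⟩
      obtain ⟨a, ha⟩ := (Submodule.mem_span_range_iff_exists_fun ℚ).1 hx2
      have h2 : ∑ i, a i • Λ'.mkQ (u i) = 0 := by
        simp only [← map_smul, ← map_sum]
        rw [ha, Submodule.mkQ_apply, Submodule.Quotient.mk_eq_zero]
        exact hGΛ' A hx1
      have h3 := Fintype.linearIndependent_iff.1 hliQ a h2
      rw [← ha]
      exact Finset.sum_eq_zero fun i _ => by rw [h3 i, zero_smul]
    have hfinG : Module.Finite ℚ (G A) := by
      have := hFf A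
      exact Submodule.finiteDimensional_of_le (hGF A).1
    have hfinU : Module.Finite ℚ (Submodule.span ℚ (Set.range u)) :=
      FiniteDimensional.span_of_finite ℚ (Set.finite_range u)
    have h4 := Submodule.finrank_sup_add_finrank_inf_eq (G A) (Submodule.span ℚ (Set.range u))
    rw [hdis, finrank_bot, add_zero, finrank_span_eq_card hli, Fintype.card_coe] at h4
    have h5 : finrank ℚ (G A ⊔ Submodule.span ℚ (Set.range u) : Submodule ℚ E) ≤
        finrank ℚ (F A) := by
      have := hFf A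
      refine Submodule.finrank_mono (sup_le (hGF A).1 (Submodule.span_le.2 ?_))
      rintro _ ⟨x, rfl⟩
      exact huF x
    have h6 := (hGF A).2.2
    omega
  have hQfin : Module.Finite ℚ Q :=
    Module.rank_lt_aleph0_iff.1 (lt_of_le_of_lt hrank Cardinal.natCast_lt_aleph0)
  have hQc : finrank ℚ Q ≤ c := by
    exact finrank_le_of_rank_le hrank
  set b := Module.finBasis ℚ Q with hb
  have hw' : ∀ i, ∃ u : E, u ∈ Λ ∧ Λ'.mkQ u = (b i : Q) := by
    intro i
    obtain ⟨u, hu, hu'⟩ := Submodule.mem_map.1 (b i).2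
    exact ⟨u, hu, hu'⟩
  choose u huΛ hub using hw'
  refine ⟨Λ', Submodule.span ℚ (Set.range u), ?_, ?_, FiniteDimensional.span_of_finite ℚ (Set.finite_range u), ?_, hgood⟩
  · rw [← hG0]
    exact hGΛ' 0
  · apply le_antisymm
    · refine sup_le hΛ'Λ (Submodule.span_le.2 ?_)
      rintro _ ⟨i, rfl⟩
      exact huΛ i
    · intro x hx
      have h1 : Λ'.mkQ x ∈ Q := Submodule.mem_map_of_mem hx
      have h2 := congrArg Q.subtype (b.sum_repr ⟨Λ'.mkQ x, h1⟩)
      rw [map_sum] at h2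
      simp only [map_smul, Submodule.subtype_apply, ← hub] at h2
      simp only [← map_smul, ← map_sum] at h2
      have h3 : x - ∑ i, (b.repr ⟨Λ'.mkQ x, h1⟩ i) • u i ∈ Λ' := by
        rw [← Submodule.Quotient.mk_eq_zero, ← Submodule.mkQ_apply, map_sub, h2, sub_self]
      rw [← sub_add_cancel x (∑ i, (b.repr ⟨Λ'.mkQ x, h1⟩ i) • u i)]
      exact Submodule.add_mem_sup h3 (Submodule.sum_mem _ fun i _ =>
        Submodule.smul_mem _ _ (Submodule.subset_span ⟨i, rfl⟩))
  · refine (finrank_range_le_card u).trans ?_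
    rw [Fintype.card_fin]
    exact hQc

omit [CharZero k] in
/-- unions of chains -/
theorem FreeQ.iUnion {W : Submodule k E} {D n : ℕ} (G : ℕ → Submodule ℚ E) (hG : Monotone G)
    (h : ∀ i, FreeQ W D n (G i)) : FreeQ W D n (⨆ i, G i) := by
  classical
  intro m hm y hy
  have h0 : ((⨆ i, G i : Submodule ℚ E) : Set E) = ⋃ i, (G i : Set E) :=
    Submodule.coe_iSup_of_directed G hG.directed_le
  have hmono : Monotone fun i => Submodule.span k (G i : Set E) := fun i j hij =>
    Submodule.span_mono (hG hij)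
  have h1 : ∀ i, ∃ a, y i ∈ Submodule.span k (G a : Set E) := by
    intro i
    have h2 := hy i
    rw [h0, Submodule.span_iUnion] at h2
    exact (Submodule.mem_iSup_of_directed _ hmono.directed_le).1 h2
  choose a ha using h1
  exact h (Finset.univ.sup a) m hm y fun i =>
    hmono (Finset.le_sup (f := a) (Finset.mem_univ i)) (ha i)

/-- **Spaces of finite codimension without minimal relations.** -/
theorem exists_codim [Countable k] {Lt : Submodule k E} (hL : Hyp Lt) (hw : Wts' k E)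
    {W : Submodule k E} [Module.Finite k W] {D n c : ℕ}
    (hc : ∀ m, 0 < m → m ≤ n → finrank k W * (D + m).choose m ≤ c + 2 * m)
    (h1L : (1 : E) ∈ Lt) (Λ : Submodule ℚ E) (hΛ : ∀ x ∈ Λ, x ∈ Lt) (hBk : Bk k Λ)
    (hcount : (Λ : Set E).Countable) (V : Submodule ℚ E) (hVΛ : V ≤ Λ)
    (hVf : Module.Finite ℚ V) (hV : FreeQ W D n V) :
    ∃ Λ' U : Submodule ℚ E, V ≤ Λ' ∧ Λ' ⊔ U = Λ ∧ Module.Finite ℚ U ∧
      finrank ℚ U ≤ c ∧ FreeQ W D n Λ' := by
  refine chain_codim (FreeQ W D n) c Λ hcount (fun F G hFf hFΛ hGF hG => ?_)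
    (fun G hG h => FreeQ.iUnion G hG h) V hVΛ hVf hV
  exact ext_step hL hw hc F G h1L (fun x hx => hΛ x (hFΛ hx))
    (fun r w hw' => hBk r w fun i => hFΛ (hw' i)) hGF hG

end Pool.Agent.Helper71.FC
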