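import Mathlib
import Pool.Graph.R_seed8.Y787.CStrat
import Pool.Agent.Helper71.MLog.Logs
import Pool.Agent.Helper71.FC.Chain

/-!
# Linearly independent elements without relations
-/

set_option autoImplicit false

namespace Pool.Agent.Helper71.FC

open Finset Module MvPolynomial

variable {k E : Type} [Field k] [Field E] [Algebra k E] [CharZero E]

/-- linearly independent elements have no relations -/
def NoRel (n D : ℕ) (W : Submodule k E) (V : Submodule ℚ E) : Prop :=
  ∀ m ≤ n, ∀ y : Fin m → E, (∀ i, y i ∈ Submodule.span k (insert 1 (V : Set E))) →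
    LinearIndependent k (Fin.cons 1 y : Fin (m + 1) → E) →
    ∀ P : MvPolynomial (Fin m) E, (∀ s, P.coeff s ∈ W) → P.totalDegree ≤ D → eval y P = 0 → P = 0

theorem NoRel.freeQ {n D : ℕ} {W : Submodule k E} {V : Submodule ℚ E} (h : NoRel n D W V) :
    FreeQ W D n V := by
  rintro m hm y hy ⟨hli, ⟨P, hP0, hP, hPy⟩, -⟩
  exact hP0 (h m hm y (fun i => Submodule.span_mono (Set.subset_insert _ _) (hy i)) hli P hP.1
    hP.2 hPy)

theorem FreeQ.noRel {n D : ℕ} {W : Submodule k E} {V : Submodule ℚ E} (h : FreeQ W D n V) :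
    NoRel n D W V := by
  classical
  intro m hm y hy hli P hPW hPD hPy
  by_contra hP0
  have h1 : ∀ i, ∃ (a : k) (z : E), z ∈ Submodule.span k (V : Set E) ∧ y i = a • (1 : E) + z :=
    fun i => by
      obtain ⟨a, z, hz, hyz⟩ := Submodule.mem_span_insert.1 (hy i)
      exact ⟨a, z, hz, hyz⟩
  choose a z hz hyz using h1
  have hone : LinearIndependent k (fun i j => (1 : Matrix (Fin m) (Fin m) k) i j) :=
    li_rows _ (by simp)
  have hcmb : cmb (fun i j => (1 : Matrix (Fin m) (Fin m) k) i j) y = y := by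
    funext i
    simp only [cmb]
    rw [Finset.sum_eq_single i]
    · rw [Matrix.one_apply_eq, map_one, one_mul]
    · intro j _ hj
      rw [Matrix.one_apply_ne (Ne.symm hj), map_zero, zero_mul]
    · intro h; exact absurd (Finset.mem_univ i) h
  have hliz : LinearIndependent k (Fin.cons 1 z : Fin (m + 1) → E) := by
    have h2 := li_cmb hli _ hone (fun j => -a j)
    rw [hcmb] at h2
    have h3 : (fun j => algebraMap k E (-a j) + y j) = z := by
      funext j
      rw [hyz j, Algebra.smul_def, mul_one, map_neg, neg_add_cancel_left]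
    rw [h3] at h2
    exact h2
  have hrel : Rel W D z := by
    refine Rel.trans_iff (v := a) ⟨P, hP0, ⟨hPW, hPD⟩, ?_⟩
    have h3 : (fun i => algebraMap k E (a i) + z i) = y := by
      funext j
      rw [hyz j, Algebra.smul_def, mul_one]
    rw [h3]
    exact hPy
  obtain ⟨m', hm', u, hu⟩ := exists_bad hliz hrel
  refine h m' (hm'.trans hm) _ (fun i => ?_) hu
  refine Submodule.sum_mem _ fun j _ => ?_
  rw [← Algebra.smul_def]
  exact Submodule.smul_mem _ _ (hz j)

/-- **Spaces of finite codimension without relations of bounded degree.** -/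
theorem exists_noRel {E : Type} [Field E] [CharZero E] [Algebra k E] [CharZero k] [Countable k]
    [Uncountable E] {Lt : Submodule k E}
    (hL : Pool.Agent.W254.PA.Hyp Lt) (h1L : (1 : E) ∈ Lt) (𝓛 : Submodule ℚ E)
    (h𝓛 : ∀ x ∈ 𝓛, x ∈ Lt) (hBk : Bk k 𝓛) (hcount : (𝓛 : Set E).Countable) (n D : ℕ)
    (hD : 2 ≤ D) (W : Submodule k E) [Module.Finite k W] (V : Submodule ℚ E) (hV𝓛 : V ≤ 𝓛)
    (hVf : Module.Finite ℚ V) (hV : NoRel n D W V) :
    ∃ Λ U : Submodule ℚ E, V ≤ Λ ∧ Λ ⊔ U = 𝓛 ∧ Module.Finite ℚ U ∧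
      finrank ℚ U ≤ finrank k W * (D + n).choose n - 2 * n ∧ NoRel n D W Λ := by
  obtain ⟨Λ, U, h1, h2, h3, h4, h5⟩ := exists_codim (c := finrank k W * (D + n).choose n - 2 * n)
    hL Pool.Agent.Y787.AS.wts_pt (W := W) (D := D) (n := n) (by
      intro m hm hmn
      rcases Nat.eq_zero_or_pos (finrank k W) with h0 | h0
      · rw [h0, zero_mul]
        exact Nat.zero_le _
      obtain ⟨N', hN'⟩ : ∃ N', finrank k W = N' + 1 := ⟨finrank k W - 1, by omega⟩
      have key : ∀ e, (N' + 1) * (D + m).choose m + 2 * e ≤ (N' + 1) * (D + (m + e)).choose (m + e) := by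
        intro e
        induction e with
        | zero => exact le_rfl
        | succ e ih =>
          have h5 : (D + (m + (e + 1))).choose (m + (e + 1)) =
              (D + (m + e)).choose (m + e) + (D + (m + e)).choose (m + e + 1) :=
            Nat.choose_succ_succ' (D + (m + e)) (m + e)
          have h6 : 2 ≤ (D + (m + e)).choose (m + e + 1) := by
            have h7 : (2 + (m + e)).choose (m + e + 1) ≤ (D + (m + e)).choose (m + e + 1) :=
              Nat.choose_le_choose _ (by omega)
            have h8 : (2 + (m + e)).choose (m + e + 1) = 2 + (m + e) := by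
              have h9 : 2 + (m + e) = (m + e + 1) + 1 := by ring
              rw [h9, Nat.choose_succ_self_right]
            omega
          rw [h5, Nat.mul_add (N' + 1)]
          have h10 : 1 * 2 ≤ (N' + 1) * (D + (m + e)).choose (m + e + 1) :=
            Nat.mul_le_mul (by omega) h6
          omega
      obtain ⟨e, he⟩ : ∃ e, n = m + e := ⟨n - m, by omega⟩
      have h11 := key e
      rw [hN', he]
      omega)
    h1L 𝓛 h𝓛 hBk hcount V hV𝓛 hVf hV.freeQ
  exact ⟨Λ, U, h1, h2, h3, h4, h5.noRel⟩

end Pool.Agent.Helper71.FC
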