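import Mathlib
import Pool.Agent.Helper71.FC.Free

/-!
# One logarithm
-/

set_option autoImplicit false

namespace Pool.Agent.Helper71.FC

open Finset Module MvPolynomial

variable {k E : Type} [Field k] [Field E] [Algebra k E] [CharZero E]

theorem noRel_one [CharZero k] (hk : ∀ x : E, IsAlgebraic k x → x ∈ Set.range (algebraMap k E)) (n D : ℕ)
    {V : Submodule ℚ E} (hVf : Module.Finite ℚ V) (hV : finrank ℚ V ≤ 1) :
    NoRel n D (Submodule.span k {(1 : E)}) V := by
  classical
  obtain ⟨v, hv⟩ := finrank_le_one_iff.1 hV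
  intro m hm y hy hli P hPW hPD hPy
  -- the space is small
  have hspan : Submodule.span k (insert 1 (V : Set E)) ≤ Submodule.span k ({1, (v : E)} : Set E) := by
    refine Submodule.span_le.2 ?_
    rintro x (rfl | hx)
    · exact Submodule.subset_span (Or.inl rfl)
    · obtain ⟨c, hc⟩ := hv ⟨x, hx⟩
      have h1 : x = (c : k) • (v : E) := by
        have := congrArg (fun z : V => (z : E)) hc
        simp only [Submodule.coe_smul] at this
        rw [← this, Algebra.smul_def (c : k), map_ratCast, Rat.smul_def]
      rw [SetLike.mem_coe, h1]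
      exact Submodule.smul_mem _ _ (Submodule.subset_span (Or.inr rfl))
  have hm1 : m + 1 ≤ 2 := by
    have h1 : ∀ i, (Fin.cons 1 y : Fin (m + 1) → E) i ∈ Submodule.span k ({1, (v : E)} : Set E) := by
      intro i
      refine Fin.cases ?_ (fun i => ?_) i
      · rw [Fin.cons_zero]
        exact Submodule.subset_span (Or.inl rfl)
      · rw [Fin.cons_succ]
        exact hspan (hy i)
    have hfin : Module.Finite k (Submodule.span k ({1, (v : E)} : Set E)) :=
      FiniteDimensional.span_of_finite k (Set.toFinite _)
    have h2 : LinearIndependent k (fun i => (⟨(Fin.cons 1 y : Fin (m + 1) → E) i, h1 i⟩ :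
        Submodule.span k ({1, (v : E)} : Set E))) :=
      LinearIndependent.of_comp (Submodule.span k ({1, (v : E)} : Set E)).subtype hli
    have h3 := h2.fintype_card_le_finrank
    rw [Fintype.card_fin] at h3
    refine h3.trans ?_
    have h4 := finrank_span_finset_le_card (R := k) ({1, (v : E)} : Finset E)
    have h5 : ((({1, (v : E)} : Finset E) : Set E)) = ({1, (v : E)} : Set E) := by simp
    rw [h5] at h4
    exact h4.trans Finset.card_le_two
  have hP' : ∀ s, ∃ a : k, algebraMap k E a = P.coeff s := by
    intro s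
    obtain ⟨a, ha⟩ := Submodule.mem_span_singleton.1 (hPW s)
    exact ⟨a, by rw [← ha, Algebra.smul_def, mul_one]⟩
  have hPr : P ∈ Set.range (map (algebraMap k E) : MvPolynomial (Fin m) k →+* MvPolynomial (Fin m) E) := by
    have := (MvPolynomial.mem_range_map_iff_coeffs_subset (f := algebraMap k E) (x := P)).2
    apply this
    intro c hc
    obtain ⟨s, -, rfl⟩ := MvPolynomial.mem_coeffs_iff.1 hc
    exact hP' s
  obtain ⟨Q, rfl⟩ := hPr
  have hQ : aeval y Q = 0 := by
    rw [← hPy, MvPolynomial.aeval_def, MvPolynomial.eval_map]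
  have hind : AlgebraicIndependent k y := by
    rcases Nat.eq_zero_or_pos m with h0 | h0
    · subst h0
      exact algebraicIndependent_empty_type
    · obtain rfl : m = 1 := by omega
      rw [algebraicIndependent_unique_type_iff]
      intro halg
      obtain ⟨a, ha⟩ := hk _ halg
      have h1 := Fintype.linearIndependent_iff.1 hli ![a, -1] (by
        rw [Fin.sum_univ_two]
        simp only [Matrix.cons_val_zero, Matrix.cons_val_one]
        have h2 : (Fin.cons 1 y : Fin 2 → E) 0 = 1 := rfl
        have h3 : (Fin.cons 1 y : Fin 2 → E) 1 = y 0 := rfl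
        rw [h2, h3, Algebra.smul_def, ha, mul_one, neg_smul, one_smul]
        exact add_neg_cancel _) 1
      simp at h1
  have hQ0 : Q = 0 := (injective_iff_map_eq_zero _).1 hind Q hQ
  rw [hQ0, map_zero]

theorem noRel_bot (n D : ℕ) (W : Submodule k E) : NoRel n D W (⊥ : Submodule ℚ E) := by
  classical
  intro m hm y hy hli P hPW hPD hPy
  rcases Nat.eq_zero_or_pos m with h0 | h0
  · subst h0
    rw [MvPolynomial.eq_C_of_isEmpty P] at hPy ⊢
    rw [eval_C] at hPy
    rw [hPy, C_0]
  · exfalso
    obtain ⟨m', rfl⟩ : ∃ m', m = m' + 1 := ⟨m - 1, by omega⟩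
    obtain ⟨a, z, hz, hyz⟩ := Submodule.mem_span_insert.1 (hy 0)
    have hz0 : z = 0 := by
      have h1 : ((⊥ : Submodule ℚ E) : Set E) = {0} := rfl
      rw [h1, Submodule.span_zero_singleton] at hz
      exact hz
    have h2 := Fintype.linearIndependent_iff.1 hli (Fin.cons a (Pi.single 0 (-1))) (by
      rw [Fin.sum_univ_succ]
      simp only [Fin.cons_zero, Fin.cons_succ]
      rw [Finset.sum_eq_single 0]
      · rw [Pi.single_eq_same, hyz, hz0, add_zero, neg_smul, one_smul, add_neg_cancel]
      · intro b _ hb
        rw [Pi.single_eq_of_ne hb, zero_smul]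
      · intro h; exact absurd (Finset.mem_univ _) h) (Fin.succ 0)
    rw [Fin.cons_succ, Pi.single_eq_same] at h2
    exact one_ne_zero (neg_eq_zero.1 h2)

end Pool.Agent.Helper71.FC
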